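import Pool.Agent.H851.UK.OneF

/-!
# One Frobenius element shows that the second cohomology of a K3 surface and an abelian variety are independent

Let `V` be the second cohomology of a K3 surface `X` over a number field `K`, or of any smooth projective variety with
`h^{2,0} = 1` (or any motive of K3 type), in `ℓ`-adic cohomology. We assume that `V` is semisimple, and that its Tate
endomorphisms (those which commute with an open subgroup of the Galois group) are scalars on the transcendental part
`T`, the orthogonal complement of the Tate classes, with `dim T ≥ 3` odd. Let `W = H^1(A)` for any abelian variety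
`A` over `K`. The even-degree cohomology of `X × A × A` contains `V(1) ⊗ W ⊗ W(1)`, and its monodromy group and
Sato-Tate group depend on the way in which `V(1)` and `W` are related.

**Theorem.** One of the following holds.

* `V(1)` and `W` are independent (the Lie algebra of the monodromy group of `V(1) ⊕ W` is the sum of those of `V(1)`
  and `W`), and all maps `V(1) → End(W)` which are equivariant for an open subgroup of the Galois group are zero on `T`.
* There is an open subgroup `Δ` of the Galois group such that for all `g` in `Δ` all eigenvalues of `g` on `V(1)` are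
  quotients `b / a` of two eigenvalues of `g` on `W`; and there is `N ≥ 1` such that for all `g` and all eigenvalues `α`
  of `g` on `V(1)` there are eigenvalues `a`, `b` of `g` on `W` with `(α a) ^ N = b ^ N`.

So the first alternative can be proved with ONE Frobenius element: if, for one place `v` of good reduction, one
eigenvalue `α` of the Frobenius element on `V(1)` is not the product of a root of unity and a quotient of two Frobenius
eigenvalues on `W`, then `V(1)` and `W` are independent, and there are no Tate classes in `T ⊗ W ⊗ W(1)`.

The proof. If `V(1)` and `W` are not independent then there is a module `P W` of the even Clifford algebra of `T` in `W`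
(the Kuga-Satake dichotomy), and a Tate class `θ : V(1) → End(P W)` with `θ(x) θ(y) = c ψ(x, y)` on `T`, `c ≠ 0`
(an earlier hand-in). The second property implies that `θ` is injective on `T`, also with coefficients in an
algebraically closed field. If `x` is an eigenvector of `g` on `T(1)` for `α` then `σ(g) θ(x) = α θ(x) σ(g)` for `g` in
an open subgroup, and such a matrix `θ(x)` can only be different from zero if `α a = b` for some eigenvalues of `σ(g)`.

The facts on `V` which are used are collected in the structure `IsK3Type`: at almost all primes `p` and places
of degree one above `p` the characteristic polynomial of the Frobenius element is monic with integral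
coefficients, with zeros of absolute value `p`, and its Newton polygon lies above the Hodge polygon. The matrix
`tw χ ρ g = χ(g)⁻¹ ρ(g)` is the action on `V(1)`, as `χ` is the inverse of the cyclotomic character. For `W` it is
only used that it is continuous and semisimple and that Frobenius elements are zeros of integral polynomials
of weight one (`WeightOneAt`).
-/

set_option autoImplicit false

namespace Pool.Agent.Results.MP_32ceeb_nt.FrobeniusQuotients

open Polynomial NumberField IsDedekindDomain Matrix Module
open Pool.Agent.H851.K3
open Pool.Agent.H851.TT (ScalarEnds)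
open Pool.Agent.H851.KD (Independent)
open Pool.Agent.H851.UK (WeightOneAt TateClass)
open Pool.Agent.NH56.HY (GK tw)

/-- **One Frobenius element shows the independence.** `ρ` is the action of the Galois group of `K` on `V = ℚ_ℓ ^ n`, `q`
the form, `χ` the inverse of the cyclotomic character, and `σ` is the action on `W = ℚ_ℓ ^ m`; the eigenvalues are in
an algebraically closed field `F` which contains `ℚ_ℓ`. -/
theorem result {K : Type} [Field K] [NumberField K] {ℓ : ℕ} [Fact ℓ.Prime] {n : Type} [Fintype n]
    [DecidableEq n] {q : Matrix n n ℚ_[ℓ]} {S : Finset ℕ} {χ : GK K →* ℚ_[ℓ]}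
    {Pol : HeightOneSpectrum (𝓞 K) → ℤ[X]} {ρ : GK K →* Matrix n n ℚ_[ℓ]} {m : Type}
    [Fintype m] [DecidableEq m] {σ : GK K →* Matrix m m ℚ_[ℓ]} {j : ℤ}
    {F : Type} [Field F] [IsAlgClosed F] [Algebra ℚ_[ℓ] F]
    (h : IsK3Type q S χ Pol ρ) (hss : Semisimple ρ) (hc : ScalarEnds q χ ρ)
    (hd : 3 ≤ finrank ℚ_[ℓ] (orth q (tate χ ρ)))
    (hodd : Odd (finrank ℚ_[ℓ] (orth q (tate χ ρ)))) (hw : WeightOneAt j σ) :
    (Independent χ ρ σ ∧
      ∀ φ, TateClass χ ρ σ φ → ∀ x ∈ orth q (tate χ ρ), φ x = 0) ∨
    ((∃ Δ : Subgroup (GK K), IsOpen (Δ : Set (GK K)) ∧ ∀ g ∈ Δ, ∀ α : F,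
      aeval α (tw χ ρ g).charpoly = 0 →
      ∃ a b : F, aeval a (σ g).charpoly = 0 ∧ aeval b (σ g).charpoly = 0 ∧ α * a = b) ∧
    ∃ N : ℕ, 0 < N ∧ ∀ (g : GK K) (α : F), aeval α (tw χ ρ g).charpoly = 0 →
      ∃ a b : F, aeval a (σ g).charpoly = 0 ∧ aeval b (σ g).charpoly = 0 ∧
        (α * a) ^ N = b ^ N) :=
  Pool.Agent.H851.UK.one_main h hss hc hd hodd hw

end Pool.Agent.Results.MP_32ceeb_nt.FrobeniusQuotients
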