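import Pool.Agent.H367.OS.OEq

/-!
# The Sato-Tate conjecture in even degree and single pieces of one sequence of cubics

A relation `r` of size `m` is one of the equations `x_i x_j = x_l`, `x_i + x_j = x_l`, `x_i = 1` with
`i, j, l < m`; the relations are numbered, the number of `r` is `ν(r)` (`relNum`). Let `G_m` be the
following polynomial with integral coefficients (`univG ℤ m`). There are variables `x_i` and `z_ij` for
`i, j < m`, a variable `c_r` for every relation `r`, and variables `y_{r,l}` for all relations `r` and
`l < (m + 1) 2 ^ ν(r)`. The equations (`eqnG`) are

  `z_ij - x_i x_j`,  `c_r ^ 2 - c_r`,  `c_r ρ_r`,  `(1 - c_r) y_{r,l}`,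

where `ρ_r` is the linear polynomial `z_ij - x_l`, `x_i + x_j - x_l` or `x_i - 1` of the relation.
`G_m` is the sum of the equations multiplied by further variables `t_e`, one for each equation. It has
degree three. Let `C_m` be the affine cubic hypersurface `G_m = 1` (`cubG R m` over the ring `R`); it is
smooth over the integers.

Let `l` be a prime number with an embedding of `ℚ_l` in `ℂ`, and let `M` be the category of motives
over `ℚ` (motivated cycles), a semisimple abelian category with Tate twists `N ↦ N(a)`. For a
separated scheme `X` of finite type over `ℚ` let `D.G w j X = Gr^W_w H^j_c(X)` be the part of weight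
`w` of the cohomology with compact supports, a motive over `ℚ`; for smooth projective `Y` it is
`h^j(Y)` if `j = w`, and zero otherwise.

For a motive `N` of weight `0` let `S.X N` be the space of the conjugacy classes of the Sato-Tate
group of `N` (a maximal compact subgroup of the complex points of the Zariski closure of the image of
Galois in `GL(H_l(N))`; for an arbitrary motive `N` take its part of weight `0`), with the image `S.μ
N` of the normalised Haar measure, and let `S.cls N p` be the class of the semisimple part of
Frobenius at `p`, for all prime numbers `p` except finitely many (any point for the others, they do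
not matter). `Equidistributed S N` says that the classes are equidistributed: the mean values of
bounded continuous functions over the primes `p ≤ n` tend to the integrals. For `N = h^i(X)(i / 2)`
this is question Q1 for `X` and the even number `i`.

If `N` is a direct factor of `N'`, the Zariski closure for `N` is a quotient of the one for `N'`, and so
there is a surjective homomorphism of the Sato-Tate groups (well defined up to conjugacy) which is
compatible with the classes of Frobenius (`IsClassData`). It is proved here that the equidistribution is
inherited by direct factors.

**Theorem.** Let `E_m` be the number of the equations, and for `N ∈ ℕ` let `e = (m + 1) N + E_m - 1`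
(`esh m N`).

(1) For every even number `i = 2 r` question Q1 has a positive answer for all smooth projective
varieties over `ℚ` if and only if for infinitely many `m` the Frobenius classes are equidistributed
for the single motives `Gr^W_{i+2e} H^{i+2e+1}_c(C_m)(r + e)` of weight `0`, for all `N`.

(2) The hypersurfaces `C_m` decide the statement for the pieces of the cohomology (`DecidesPieces`).
For every affine scheme `Spec B` of finite type over `ℚ` and all large `m` there is an `N` such that
for `0 ≤ w ≤ 2 m + 1` and all `j` the statement for `Gr^W_w H^j_c(Spec B)` is equivalent to the one
for `Gr^W_{w+2e} H^{j+2e+1}_c(C_m)`. For every smooth projective `Y` over `ℚ`, every `d` and all large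
`m` there is an `e'` such that for all `i ≤ d` the statement for `h^i(Y)` is equivalent to the one for
`Gr^W_{i+2e'} H^{i+2e'+1}_c(C_m)`. The statements for the pieces of one `C_m` imply those for all
pieces of a given separated scheme `X` of finite type. (In all these statements there are the same
Tate twists on both sides, up to the shift by `e`.)

(3) For `i = 0` this is known (the theorem of Chebotarev): the Frobenius classes are equidistributed for
the motives `Gr^W_{2e} H^{2e+1}_c(C_m)(e)`, for infinitely many `m` and all `N`.

(4) `G_m` has integral coefficients and degree at most three, and `C_m` is smooth over all rings.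

The hypotheses on the motives are standard (`IsMot`): exact sequences, affine bundles, disjoint unions,
the cohomology of affine spaces, the weights of `H^j_c(X)` are between `0` and `2 dim X`, monomorphisms
split, `Gr^W_w H^j_c(X)` is a direct factor of `h^w(Y)` for some smooth projective `Y` (it is a
subquotient, by the weight spectral sequence), and every smooth projective scheme has an affine bundle
whose total space is affine (Jouanolou).

Idea of the proof. The projection of `C_m` to the affine space with the coordinates `x, z, c, y` is an
affine bundle over the complement of the zero set `W_m` of the equations. The scheme `W_m` is the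
disjoint union, over all sets `s` of relations (`c_r = 1` for `r ∈ s` and `c_r = 0` for the others), of
the products `X_s × 𝔸 ^ ((m + 1) N(s))`, where `X_s` is the affine scheme defined by the relations in
`s` and `N(s) = ∑_{r ∈ s} 2 ^ ν(r)`. The numbers `N(s)` are different, and the weights of the
cohomology of `X_s` are between `0` and `2 m`. So the part of weight `w + 2 (m + 1) N(s)`,
`0 ≤ w ≤ 2 m + 1`, of the cohomology of `W_m` is the twist of the part of weight `w` of the cohomology of
`X_s`, and it is different from the weight of the cohomology of the affine space. Every affine scheme of
finite type over a prime field is an `X_s`, for all large `m`. The pieces of the cohomology of an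
arbitrary scheme are direct factors of those of a disjoint union of affine schemes.

The universal system of relations is the one of helper854 (`Pool.Agent.H854.SQ`).
-/

set_option autoImplicit false

open CategoryTheory CategoryTheory.Limits AlgebraicGeometry Pool.Agent.Y116.UV Pool.Agent.Z125.UN
  Pool.Agent.Q193.LT Pool.Agent.H854.SQ Pool.Agent.H367.OS

universe v u



namespace Pool.Agent.Results.MP_32ceeb_nt.PiecesOfOneSequence

/-- **The Sato-Tate conjecture in even degree and single pieces of one sequence of cubic hypersurfaces
over the integers.** See the explanations above. -/
theorem result {M : Type u} [Category.{v} M] [Abelian M] {D : Pieces ℚ M} (h : IsMot D)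
    {S : ClassData M} (hS : IsClassData S)
    (chebotarev : ∀ Y : Sch ℚ, SmoothProj Y → Equidistributed S ((D.tw 0).obj (D.G 0 0 Y))) :
    (∀ r : ℕ, (∀ Y : Sch ℚ, SmoothProj Y →
        Equidistributed S ((D.tw r).obj (D.G (2 * r) (2 * r) Y))) ↔
      ∃ᶠ m in Filter.atTop, ∀ N : ℕ, Equidistributed S ((D.tw (r + esh m N)).obj
        (D.G (2 * r + 2 * esh m N) (2 * r + 2 * esh m N + 1) (cubG ℚ m)))) ∧
    DecidesPieces D (Equidistributed S) ∧
    (∃ᶠ m in Filter.atTop, ∀ N : ℕ, Equidistributed S ((D.tw (esh m N)).obj
      (D.G (2 * esh m N) (2 * esh m N + 1) (cubG ℚ m)))) ∧
    ∀ m : ℕ, (univG ℤ m).totalDegree ≤ 3 ∧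
      ∀ (R : Type) [CommRing R], MvPolynomial.map (Int.castRingHom R) (univG ℤ m) = univG R m ∧
        Smooth (cubG R m).hom := by
  have hf : FactorClosed (Equidistributed S) := fun e hN => Equidistributed.factor hS e hN
  have hd := decides_pieces isPrimeField_rat h hf
  refine ⟨fun r => ?_, hd, ?_, cubG_facts⟩
  · have h1 := (hd.weight (2 * r) r).out 1 0
    push_cast at h1
    exact h1
  · have h1 := ((hd.weight 0 0).out 1 0).mp chebotarev
    simpa using h1

end Pool.Agent.Results.MP_32ceeb_nt.PiecesOfOneSequence
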