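import Pool.Agent.H500.LV.Tw

set_option autoImplicit false
set_option linter.unusedSectionVars false

/-!
# The Sato-Tate law in even weight for systems whose residual representations have solvable image

Let `K` and `E` be number fields, `P v` a polynomial over the ring of integers of `E` for every place
`v` of `K` (for a smooth projective `X` over `K = ℚ` and an even degree `i = 2u`: the characteristic
polynomials of the geometric Frobenius elements on `H^i(X)`, `E = ℚ`), `N ≥ 2`.  Suppose that the roots of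
`P v` in `ℂ` have absolute value `(N v)^u` for `v ∤ N` (for one embedding of `E` in `ℂ`), and that for a
set of primes `λ` of `E` of positive upper density the `P v` modulo `λ` are the characteristic polynomials
of the geometric Frobenius elements for a residual representation of dimension `n` of the absolute
Galois group of `K` with solvable image.

Then for all `ℓ` and `κ : E → PadicAlgCl ℓ` there is a continuous semisimple `ℓ-adic` representation `ρ`
attached to `P`, and the Sato-Tate law holds for `V = ρ(u)` in the form of Weyl's criterion: for every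
subrepresentation `W` of `V^(⊗ a) ⊗ (V*)^(⊗ b)` the mean value of `tr(Frob_v | W)` over the places `v` of
norm at most `x` tends to the dimension of the space of invariants of `W`, for `x → ∞`, for every
isomorphism `PadicAlgCl ℓ ≃ ℂ`.  All irreducible representations of the (reductive) algebraic monodromy
group of `V` are of this form, so this is the equidistribution of the classes `x_v` in the
Sato-Tate group.
-/

namespace Pool.Agent.Results.MP_32ceeb_nt.SolvableResidualImages

open NumberField IsDedekindDomain Filter Topology Polynomial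
open Pool.Agent.W401.Cheb (GK IsFrob IsInert dens)
open Pool.Agent.H500.ME (SolvableAt Att IsCyc tens Inv)
open Pool.Agent.H500.LV (tw)

/-- the mean value of `F` over the places of `K` of norm at most `x` -/
noncomputable def mean {K : Type} [Field K] [NumberField K] (F : HeightOneSpectrum (𝓞 K) → ℂ)
    (x : ℕ) : ℂ :=
  (∑ᶠ v ∈ {v : HeightOneSpectrum (𝓞 K) | Ideal.absNorm v.asIdeal ≤ x}, F v) /
    ({v : HeightOneSpectrum (𝓞 K) | Ideal.absNorm v.asIdeal ≤ x}.ncard : ℂ)

theorem mean_of {K : Type} [Field K] [NumberField K] {F : HeightOneSpectrum (𝓞 K) → ℂ} {r : ℂ}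
    (h : Pool.Agent.H500.ME.MV F r) : Tendsto (mean F) atTop (𝓝 r) := by
  have h1 : Tendsto (fun x : ℕ => (∑ v ∈ Pool.Agent.H500.ME.pl K x, F v) /
      (Nat.primeCounting x : ℂ)) atTop (𝓝 r) := h.nat
  have h2 : Tendsto (fun x : ℕ => (∑ _v ∈ Pool.Agent.H500.ME.pl K x, (1 : ℂ)) /
      (Nat.primeCounting x : ℂ)) atTop (𝓝 1) := (Pool.Agent.H500.ME.all_MV1 K).nat
  have h3 := h1.div h2 one_ne_zero
  rw [div_one] at h3
  refine h3.congr' ?_
  filter_upwards [eventually_ge_atTop 2] with x hx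
  have hπ : (Nat.primeCounting x : ℂ) ≠ 0 := by
    have h4 : 0 < Nat.primeCounting x := by
      have h5 := Nat.monotone_primeCounting hx
      have h6 : Nat.primeCounting 2 = 1 := by decide
      omega
    exact_mod_cast h4.ne'
  have hset : ((Pool.Agent.H500.ME.pl K x : Finset (HeightOneSpectrum (𝓞 K))) :
      Set (HeightOneSpectrum (𝓞 K))) = {v | Ideal.absNorm v.asIdeal ≤ x} := by
    unfold Pool.Agent.H500.ME.pl
    exact Set.Finite.coe_toFinset _
  unfold mean
  rw [← hset, finsum_mem_coe_finset, Set.ncard_coe_finset, Pi.div_apply, div_div_div_cancel_right₀ hπ,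
    Finset.sum_const, nsmul_eq_mul, mul_one]

theorem result (K E : Type) [Field K] [NumberField K] [Field E] [NumberField E] (N n : ℕ)
    (hN : 2 ≤ N) (P : HeightOneSpectrum (𝓞 K) → (𝓞 E)[X]) (u : ℤ) (τ : E →+* ℂ)
    (hw : ∀ v : HeightOneSpectrum (𝓞 K), (N : 𝓞 K) ∉ v.asIdeal →
      ∀ z ∈ ((P v).map (τ.comp (algebraMap (𝓞 E) E))).roots,
        ‖z‖ = (Ideal.absNorm v.asIdeal : ℝ) ^ u)
    (h : ¬ Tendsto (dens (SolvableAt N n P)) atTop (𝓝 0)) (ℓ : ℕ) [Fact ℓ.Prime]
    (κ : E →+* PadicAlgCl ℓ) :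
    (∃ ρ : GK K →* GL (Fin n) (PadicAlgCl ℓ), Att N n P ℓ κ ρ) ∧
    (∃ χ : GK K →* (PadicAlgCl ℓ)ˣ, IsCyc ℓ χ) ∧
    ∀ (ι : PadicAlgCl ℓ ≃+* ℂ) (ρ : GK K →* GL (Fin n) (PadicAlgCl ℓ)), Att N n P ℓ κ ρ →
      ∀ χ : GK K →* (PadicAlgCl ℓ)ˣ, IsCyc ℓ χ → ∀ (a b m : ℕ)
      (W : GK K →* GL (Fin m) (PadicAlgCl ℓ))
      (T : Matrix ((Fin a → Fin n) × (Fin b → Fin n)) (Fin m) (PadicAlgCl ℓ)),
      Function.Injective T.mulVec →
      (∀ g, tens a b (tw χ u ρ) g * T = T * (W g : Matrix (Fin m) (Fin m) (PadicAlgCl ℓ))) →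
      ∀ F : HeightOneSpectrum (𝓞 K) → ℂ,
        (∀ᶠ v : HeightOneSpectrum (𝓞 K) in cofinite, ∀ σ, IsFrob v σ →
          F v = ι (W σ⁻¹ : Matrix (Fin m) (Fin m) (PadicAlgCl ℓ)).trace) →
        Tendsto (mean F) atTop (𝓝 (Module.finrank (PadicAlgCl ℓ) (Inv W) : ℂ)) := by
  have hP : Pool.Agent.H500.MW.PosUD (Pool.Agent.H500.TH.SolRes N n P) :=
    Pool.Agent.H500.MW.PosUD.mono (Pool.Agent.H500.MW.posUD_of_not h) fun _ hv => hv.solRes
  refine ⟨Pool.Agent.H500.ME.att_exists hN hP ℓ κ, ?_, ?_⟩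
  · let j : E →+* Pool.Agent.H500.HC.QBar :=
      ((IsAlgClosed.lift : E →ₐ[ℚ] Pool.Agent.H500.HC.QBar) : E →+* Pool.Agent.H500.HC.QBar)
    obtain ⟨κ', -⟩ := Pool.Agent.H500.ED.exists_ext j κ
    exact (Pool.Agent.H500.ME.all_CYC K ℓ κ').1
  · intro ι ρ hρ χ hχ a b m W T hT hTW F hF
    exact mean_of (Pool.Agent.H500.LV.mean_even N n hN P hP u τ hw ℓ κ ι ρ hρ χ hχ a b m W T hT
      hTW F hF)

end Pool.Agent.Results.MP_32ceeb_nt.SolvableResidualImages
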